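import Pool.Agent.H586R3.OP.Stmts2

/-!
# Project H586-OP2, task A1: a parent function gives a tree
-/

set_option autoImplicit false

namespace Pool.Agent.H646R4.PTree

/-- A graph on `Fin (m+1)` given by a parent function with `p w < w` is a tree. -/
theorem isTree_of_parent {m : ℕ} (G : SimpleGraph (Fin (m + 1))) (p : Fin (m + 1) → Fin (m + 1))
    (hp : ∀ w : Fin (m + 1), w.val ≠ 0 → (p w).val < w.val)
    (hadj : ∀ u v : Fin (m + 1),
      G.Adj u v ↔ ((u.val ≠ 0 ∧ p u = v) ∨ (v.val ≠ 0 ∧ p v = u))) :
    G.IsTree := by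
  classical
  rw [SimpleGraph.isTree_iff_connected_and_card]
  constructor
  · have h0 : ∀ n : ℕ, ∀ w : Fin (m + 1), w.val = n → G.Reachable w 0 := by
      intro n
      induction n using Nat.strong_induction_on with
      | _ n ih =>
        intro w hw
        by_cases hz : w.val = 0
        · have : w = 0 := Fin.ext (by simpa using hz)
          rw [this]
        · have h1 : G.Adj w (p w) := (hadj w (p w)).2 (Or.inl ⟨hz, rfl⟩)
          exact h1.reachable.trans (ih (p w).val (hw ▸ hp w hz) (p w) rfl)
    have hpre : G.Preconnected := fun u v => (h0 _ u rfl).trans (h0 _ v rfl).symm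
    exact ⟨hpre⟩
  · have hne : ∀ j : Fin m, (j.succ : Fin (m + 1)).val ≠ 0 := by
      intro j
      simp
    have hmem : ∀ j : Fin m, s(j.succ, p j.succ) ∈ G.edgeSet := by
      intro j
      rw [SimpleGraph.mem_edgeSet]
      exact (hadj _ _).2 (Or.inl ⟨hne j, rfl⟩)
    let F : Fin m → G.edgeSet := fun j => ⟨s(j.succ, p j.succ), hmem j⟩
    have hF : Function.Bijective F := by
      constructor
      · intro j k hjk
        have h1 : s(j.succ, p j.succ) = s(k.succ, p k.succ) := congrArg Subtype.val hjk
        rw [Sym2.eq_iff] at h1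
        rcases h1 with ⟨h1, _⟩ | ⟨h1, h2⟩
        · exact Fin.succ_injective _ h1
        · exfalso
          have h3 := hp k.succ (hne k)
          have h4 := hp j.succ (hne j)
          rw [← h1] at h3
          rw [h2] at h4
          omega
      · rintro ⟨e, he⟩
        induction e using Sym2.ind with
        | _ u v =>
          rw [SimpleGraph.mem_edgeSet] at he
          rcases (hadj u v).1 he with ⟨h1, h2⟩ | ⟨h1, h2⟩
          · obtain ⟨j, hj⟩ := Fin.exists_succ_eq.2 (show u ≠ 0 from fun h => h1 (by simp [h]))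
            refine ⟨j, Subtype.ext ?_⟩
            show s(j.succ, p j.succ) = s(u, v)
            rw [hj, h2]
          · obtain ⟨j, hj⟩ := Fin.exists_succ_eq.2 (show v ≠ 0 from fun h => h1 (by simp [h]))
            refine ⟨j, Subtype.ext ?_⟩
            show s(j.succ, p j.succ) = s(u, v)
            rw [hj, h2, Sym2.eq_swap]
    have hc := Nat.card_eq_of_bijective F hF
    rw [← hc]
    simp

/-- Task A1. -/
theorem taskA1 : H586OP2.TaskA1 := by
  intro m p hp
  refine isTree_of_parent _ p hp ?_
  intro u v
  show ((v < u ∧ p u = v) ∨ (u < v ∧ p v = u)) ↔ _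
  constructor
  · rintro (⟨h1, h2⟩ | ⟨h1, h2⟩)
    · refine Or.inl ⟨?_, h2⟩
      have : v.val < u.val := h1
      omega
    · refine Or.inr ⟨?_, h2⟩
      have : u.val < v.val := h1
      omega
  · rintro (⟨h1, h2⟩ | ⟨h1, h2⟩)
    · refine Or.inl ⟨?_, h2⟩
      have := hp u h1
      rw [h2] at this
      exact this
    · refine Or.inr ⟨?_, h2⟩
      have := hp v h1
      rw [h2] at this
      exact this

end Pool.Agent.H646R4.PTree
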