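import Mathlib
import Pool.Agent.H586R3.TP.Stmts

/-! Project H586-OP2 (MP_4c107d_co): `P(n,k)` fails for every `1 ≤ k < 2n-2`: `k-1` double stars and
one path do not pack into `K_{2n-1,k}`. -/

set_option autoImplicit false

namespace H586OP2

/-- the graph on `Fin m` with parent function `p` (the value `p w` is used only if `p w < w`) -/
def PT (m : ℕ) (p : Fin m → Fin m) : SimpleGraph (Fin m) where
  Adj u v := (v < u ∧ p u = v) ∨ (u < v ∧ p v = u)
  symm := by
    constructor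
    intro u v h
    tauto
  loopless := by
    constructor
    intro u h
    simp at h

/-- admissible parent functions: parents are smaller and of the other parity -/
def Par (n : ℕ) (p : Fin (2 * n) → Fin (2 * n)) : Prop :=
  ∀ w : Fin (2 * n), w.val ≠ 0 → (p w).val < w.val ∧ (p w).val % 2 ≠ w.val % 2

/-- TASK A1 -/
def TaskA1 : Prop := ∀ (m : ℕ) (p : Fin (m + 1) → Fin (m + 1)),
  (∀ w : Fin (m + 1), w.val ≠ 0 → (p w).val < w.val) → (PT (m + 1) p).IsTree

/-- TASK A2 -/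
def TaskA2 : Prop := TaskA1 → ∀ (n : ℕ) (p : Fin (2 * n) → Fin (2 * n)), 1 ≤ n → Par n p →
  H586TP.BalTree n (PT (2 * n) p)

/-- TASK A3: a packing of `k` such trees covers all edges of `K_{2n-1,k}` -/
def TaskA3 : Prop := ∀ (n k : ℕ) (p : Fin k → Fin (2 * n) → Fin (2 * n))
  (f : Fin k → Fin (2 * n) → Fin (2 * n - 1) ⊕ Fin k), 1 ≤ n → (∀ i, Par n (p i)) →
  (∀ i, Function.Injective (f i)) →
  (∀ i u v, (PT (2 * n) (p i)).Adj u v →
    (completeBipartiteGraph (Fin (2 * n - 1)) (Fin k)).Adj (f i u) (f i v)) →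
  (∀ i j, i ≠ j → ∀ u v u' v', (PT (2 * n) (p i)).Adj u v → (PT (2 * n) (p j)).Adj u' v' →
    s(f i u, f i v) ≠ s(f j u', f j v')) →
  ∀ (a : Fin (2 * n - 1)) (b : Fin k), ∃ i, ∃ w : Fin (2 * n), w.val ≠ 0 ∧
    ((f i w = Sum.inl a ∧ f i (p i w) = Sum.inr b) ∨
      (f i w = Sum.inr b ∧ f i (p i w) = Sum.inl a))

/-- the family: the first tree is the path, the others are double stars with centres `0` and `1` -/
def fam (n k : ℕ) (i : Fin k) (w : Fin (2 * n)) : Fin (2 * n) :=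
  if i.val = 0 then ⟨w.val - 1, by omega⟩
  else ⟨if w.val % 2 = 1 then 0 else min 1 (w.val), by split_ifs <;> omega⟩

theorem par_fam (n k : ℕ) (i : Fin k) : Par n (fam n k i) := by
  intro w hw
  unfold fam
  split_ifs with h h'
  · simp only; omega
  · simp only; omega
  · simp only; omega

/-- TASK A4: the count at a vertex of the side of size `k` without a centre -/
def TaskA4 : Prop := ∀ (n k : ℕ) (f : Fin k → Fin (2 * n) → Fin (2 * n - 1) ⊕ Fin k), 1 ≤ n →
  1 ≤ k → (∀ i, Function.Injective (f i)) →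
  (∀ i u v, (PT (2 * n) (fam n k i)).Adj u v →
    (completeBipartiteGraph (Fin (2 * n - 1)) (Fin k)).Adj (f i u) (f i v)) →
  (∀ (a : Fin (2 * n - 1)) (b : Fin k), ∃ i, ∃ w : Fin (2 * n), w.val ≠ 0 ∧
    ((f i w = Sum.inl a ∧ f i (fam n k i w) = Sum.inr b) ∨
      (f i w = Sum.inr b ∧ f i (fam n k i w) = Sum.inl a))) →
  2 * n ≤ k + 2

theorem noPack (h1 : TaskA1) (h2 : TaskA2) (h3 : TaskA3) (h4 : TaskA4) (n k : ℕ) (hk : 1 ≤ k)
    (h : k + 2 < 2 * n) : ¬ H586TP.PackStmt n k := by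
  intro hP
  have hn : 1 ≤ n := by omega
  obtain ⟨f, hf1, hf2, hf3⟩ := hP (fun _ => Fin (2 * n)) (fun i => PT (2 * n) (fam n k i))
    (fun i => h2 h1 n _ hn (par_fam n k i))
  have hc := h3 n k (fun i => fam n k i) f hn (fun i => par_fam n k i) hf1 hf2 hf3
  have := h4 n k f hn hk hf1 hf2 hc
  omega

end H586OP2
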