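import Mathlib
import Pool.Agent.H586R3.OP.Stmts2

set_option autoImplicit false

namespace H586OP2.A1b

theorem reach (m : ℕ) (p : Fin (m + 1) → Fin (m + 1))
    (hp : ∀ w : Fin (m + 1), w.val ≠ 0 → (p w).val < w.val) :
    ∀ (N : ℕ) (w : Fin (m + 1)), w.val ≤ N → (PT (m + 1) p).Reachable 0 w := by
  intro N
  induction N with
  | zero =>
    intro w hw
    have : w = 0 := Fin.ext (by simpa using Nat.le_zero.1 hw)
    subst this
    exact SimpleGraph.Reachable.refl _
  | succ N ih =>
    intro w hw
    by_cases h0 : w.val = 0
    · exact ih w (by omega)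
    · have h := hp w h0
      have h1 := ih (p w) (by omega)
      refine h1.trans (SimpleGraph.Adj.reachable ?_)
      right
      exact ⟨h, rfl⟩

theorem card_edges (m : ℕ) (p : Fin (m + 1) → Fin (m + 1))
    (hp : ∀ w : Fin (m + 1), w.val ≠ 0 → (p w).val < w.val) :
    Nat.card (PT (m + 1) p).edgeSet = m := by
  let F : Fin m → (PT (m + 1) p).edgeSet := fun j =>
    ⟨s(j.succ, p j.succ), by
      rw [SimpleGraph.mem_edgeSet]
      left
      exact ⟨hp j.succ (by simp), rfl⟩⟩
  have hF : Function.Bijective F := by
    constructor
    · intro i j hij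
      have h := congrArg Subtype.val hij
      simp only [F] at h
      have hi := hp i.succ (by simp)
      have hj := hp j.succ (by simp)
      rw [Sym2.eq_iff] at h
      rcases h with ⟨h1, -⟩ | ⟨h1, h2⟩
      · exact Fin.succ_injective _ h1
      · exfalso
        have a1 := congrArg Fin.val h1
        have a2 := congrArg Fin.val h2
        omega
    · rintro ⟨e, he⟩
      induction e using Sym2.ind with
      | _ u v =>
        rw [SimpleGraph.mem_edgeSet] at he
        rcases he with ⟨h1, h2⟩ | ⟨h1, h2⟩
        · have hu : u ≠ 0 := by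
            rintro rfl
            exact absurd h1 (Fin.not_lt_zero _)
          refine ⟨u.pred hu, ?_⟩
          simp only [F, Fin.succ_pred, h2]
        · have hv : v ≠ 0 := by
            rintro rfl
            exact absurd h1 (Fin.not_lt_zero _)
          refine ⟨v.pred hv, ?_⟩
          simp only [F, Fin.succ_pred, h2]
          ext1
          exact Sym2.eq_swap
  rw [← Nat.card_congr (Equiv.ofBijective F hF), Nat.card_eq_fintype_card, Fintype.card_fin]

theorem taskA1 : H586OP2.TaskA1 := by
  intro m p hp
  rw [SimpleGraph.isTree_iff_connected_and_card]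
  refine ⟨?_, ?_⟩
  · rw [SimpleGraph.connected_iff_exists_forall_reachable]
    exact ⟨0, fun w => reach m p hp w.val w le_rfl⟩
  · rw [card_edges m p hp]
    simp

end H586OP2.A1b
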