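import Pool.Agent.H586R3.OP.Stmts2

/-! Task A2 of the project H586-OP2 (helper655): the trees `PT (2n) p` are balanced. -/

set_option autoImplicit false

namespace H586OP2

theorem isTree_aux (h1 : TaskA1) (N : ℕ) (hN : 1 ≤ N) (p : Fin N → Fin N)
    (hp : ∀ w : Fin N, w.val ≠ 0 → (p w).val < w.val) : (PT N p).IsTree := by
  obtain ⟨m, rfl⟩ : ∃ m, N = m + 1 := ⟨N - 1, by omega⟩
  exact h1 m p hp

theorem card_even_aux (n : ℕ) :
    Nat.card {v : Fin (2 * n) // decide (v.val % 2 = 0) = true} = n := by
  have e : {v : Fin (2 * n) // decide (v.val % 2 = 0) = true} ≃ Fin n :=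
    { toFun := fun v => ⟨v.1.val / 2, by have := v.1.isLt; omega⟩
      invFun := fun j => ⟨⟨2 * j.val, by have := j.isLt; omega⟩, by simp⟩
      left_inv := by
        rintro ⟨v, hv⟩
        have hv' : v.val % 2 = 0 := by simpa using hv
        apply Subtype.ext
        apply Fin.ext
        show 2 * (v.val / 2) = v.val
        omega
      right_inv := by
        intro j
        apply Fin.ext
        show 2 * j.val / 2 = j.val
        omega }
  rw [Nat.card_congr e, Nat.card_eq_fintype_card, Fintype.card_fin]

theorem card_odd_aux (n : ℕ) :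
    Nat.card {v : Fin (2 * n) // decide (v.val % 2 = 0) = false} = n := by
  have e : {v : Fin (2 * n) // decide (v.val % 2 = 0) = false} ≃ Fin n :=
    { toFun := fun v => ⟨v.1.val / 2, by have := v.1.isLt; omega⟩
      invFun := fun j => ⟨⟨2 * j.val + 1, by have := j.isLt; omega⟩, by
        have h : ¬ ((2 * j.val + 1) % 2 = 0) := by omega
        exact decide_eq_false h⟩
      left_inv := by
        rintro ⟨v, hv⟩
        have hv' : ¬ (v.val % 2 = 0) := of_decide_eq_false hv
        apply Subtype.ext
        apply Fin.ext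
        show 2 * (v.val / 2) + 1 = v.val
        omega
      right_inv := by
        intro j
        apply Fin.ext
        show (2 * j.val + 1) / 2 = j.val
        omega }
  rw [Nat.card_congr e, Nat.card_eq_fintype_card, Fintype.card_fin]

theorem parity_aux (n : ℕ) (p : Fin (2 * n) → Fin (2 * n)) (hp : Par n p) (u v : Fin (2 * n))
    (h : (PT (2 * n) p).Adj u v) : ¬ (u.val % 2 = 0 ↔ v.val % 2 = 0) := by
  have h' : (v < u ∧ p u = v) ∨ (u < v ∧ p v = u) := h
  rcases h' with ⟨h1, h2⟩ | ⟨h1, h2⟩
  · have h3 : v.val < u.val := h1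
    have := (hp u (by omega)).2
    rw [h2] at this
    omega
  · have h3 : u.val < v.val := h1
    have := (hp v (by omega)).2
    rw [h2] at this
    omega

theorem taskA2 : TaskA2 := by
  intro h1 n p hn hp
  refine ⟨isTree_aux h1 (2 * n) (by omega) p (fun w hw => (hp w hw).1),
    fun v => decide (v.val % 2 = 0), ?_, card_even_aux n, card_odd_aux n⟩
  intro u v huv hc
  apply parity_aux n p hp u v huv
  exact decide_eq_decide.1 hc

end H586OP2
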