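import Pool.Agent.H586R3.OP.Stmts

set_option autoImplicit false

open SimpleGraph

namespace H586OP.T4

lemma edge_mem (m : ℕ) (i : Fin m) : s(i.castSucc, i.succ) ∈ (pathGraph (m + 1)).edgeSet := by
  rw [mem_edgeSet, pathGraph_adj]
  left
  simp

lemma card_edge (m : ℕ) : Nat.card (pathGraph (m + 1)).edgeSet = m := by
  have hb : Function.Bijective
      (fun i : Fin m => (⟨s(i.castSucc, i.succ), edge_mem m i⟩ : (pathGraph (m + 1)).edgeSet)) := by
    constructor
    · intro i j h
      have h1 : s(i.castSucc, i.succ) = s(j.castSucc, j.succ) := congrArg Subtype.val h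
      rw [Sym2.eq_iff] at h1
      rcases h1 with ⟨h1, _⟩ | ⟨h1, h2⟩
      · exact Fin.castSucc_injective _ h1
      · have e1 := congrArg Fin.val h1
        have e2 := congrArg Fin.val h2
        simp at e1 e2
        omega
    · rintro ⟨e, he⟩
      induction e using Sym2.ind with
      | _ u v =>
        rw [mem_edgeSet, pathGraph_adj] at he
        rcases he with he | he
        · have hu : u.val < m := by have := v.2; omega
          refine ⟨⟨u.val, hu⟩, ?_⟩
          apply Subtype.ext
          show s(_, _) = s(u, v)
          rw [Sym2.eq_iff]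
          left
          exact ⟨Fin.ext rfl, Fin.ext (by simpa using he)⟩
        · have hv : v.val < m := by have := u.2; omega
          refine ⟨⟨v.val, hv⟩, ?_⟩
          apply Subtype.ext
          show s(_, _) = s(u, v)
          rw [Sym2.eq_iff]
          right
          exact ⟨Fin.ext rfl, Fin.ext (by simpa using he)⟩
  have := Nat.card_eq_of_bijective _ hb
  rw [← this]
  simp

lemma path_isTree (m : ℕ) : (pathGraph (m + 1)).IsTree := by
  rw [isTree_iff_connected_and_card]
  refine ⟨pathGraph_connected m, ?_⟩
  rw [card_edge]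
  simp

lemma path_isTree' (n : ℕ) (hn : 1 ≤ n) : (pathGraph (2 * n)).IsTree := by
  obtain ⟨m, hm⟩ : ∃ m, 2 * n = m + 1 := ⟨2 * n - 1, by omega⟩
  rw [hm]
  exact path_isTree _

/-- the colouring by parity -/
def pc (n : ℕ) (w : Fin (2 * n)) : Bool := decide (w.val % 2 = 0)

lemma pc_ne (n : ℕ) (u v : Fin (2 * n)) (h : (pathGraph (2 * n)).Adj u v) : pc n u ≠ pc n v := by
  rw [pathGraph_adj] at h
  unfold pc
  intro h2
  have h3 := decide_eq_decide.1 h2
  rcases h with h | h <;> omega

lemma card_true (n : ℕ) : Nat.card {v // pc n v = true} = n := by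
  have hb : Function.Bijective
      (fun i : Fin n => (⟨⟨2 * i.val, by have := i.2; omega⟩, by simp [pc]⟩ :
        {v : Fin (2 * n) // pc n v = true})) := by
    constructor
    · intro i j h
      have := congrArg (fun x => (Subtype.val x).val) h
      simp at this
      exact Fin.ext this
    · rintro ⟨v, hv⟩
      have hv' : v.val % 2 = 0 := by simpa [pc] using hv
      refine ⟨⟨v.val / 2, by have := v.2; omega⟩, ?_⟩
      apply Subtype.ext
      apply Fin.ext
      show 2 * (v.val / 2) = v.val
      omega
  have := Nat.card_eq_of_bijective _ hb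
  rw [← this]; simp

lemma card_false (n : ℕ) : Nat.card {v // pc n v = false} = n := by
  have hb : Function.Bijective
      (fun i : Fin n => (⟨⟨2 * i.val + 1, by have := i.2; omega⟩, by simp [pc]⟩ :
        {v : Fin (2 * n) // pc n v = false})) := by
    constructor
    · intro i j h
      have := congrArg (fun x => (Subtype.val x).val) h
      simp at this
      exact Fin.ext this
    · rintro ⟨v, hv⟩
      have hv' : ¬ v.val % 2 = 0 := by simpa [pc] using hv
      refine ⟨⟨v.val / 2, by have := v.2; omega⟩, ?_⟩
      apply Subtype.ext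
      apply Fin.ext
      show 2 * (v.val / 2) + 1 = v.val
      omega
  have := Nat.card_eq_of_bijective _ hb
  rw [← this]; simp

lemma bal1 (n : ℕ) (hn : 1 ≤ n) : H586TP.BalTree n (pathGraph (2 * n)) :=
  ⟨path_isTree' n hn, pc n, pc_ne n, card_true n, card_false n⟩

lemma bal2 (n : ℕ) (hn : 1 ≤ n) : Pool.Agent.H216R3.IsBalancedTree (pathGraph (2 * n)) n := by
  refine ⟨path_isTree' n hn, Coloring.mk (pc n) (fun {u v} h => pc_ne n u v h), ?_, ?_⟩
  · exact card_true n
  · exact card_false n

end H586OP.T4

theorem H586OP.task4 : H586OP.Task4 := fun n hn => ⟨H586OP.T4.bal1 n hn, H586OP.T4.bal2 n hn⟩
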