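import Mathlib
import Pool.Agent.H586R3.OP.Stmts2
import Pool.Agent.H586R3.OP.Task4

set_option autoImplicit false

namespace H586OP2.A2b

theorem tree_of (hA : H586OP2.TaskA1) (N : ℕ) (hN : 1 ≤ N) (p : Fin N → Fin N)
    (hp : ∀ w : Fin N, w.val ≠ 0 → (p w).val < w.val) : (PT N p).IsTree := by
  obtain ⟨m, rfl⟩ : ∃ m, N = m + 1 := ⟨N - 1, by omega⟩
  exact hA m p hp

theorem taskA2 : H586OP2.TaskA2 := by
  intro hA n p hn hp
  refine ⟨tree_of hA (2 * n) (by omega) p fun w hw => (hp w hw).1, H586OP.T4.pc n, ?_,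
    H586OP.T4.card_true n, H586OP.T4.card_false n⟩
  intro u v h h2
  unfold H586OP.T4.pc at h2
  have h3 := decide_eq_decide.1 h2
  rcases h with ⟨h, e⟩ | ⟨h, e⟩
  · have := (hp u (by have := Fin.lt_def.1 h; omega)).2
    rw [e] at this
    omega
  · have := (hp v (by have := Fin.lt_def.1 h; omega)).2
    rw [e] at this
    omega

end H586OP2.A2b
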