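import Mathlib
import Pool.Agent.H586R3.OP.Stmts2

/-! Task A3 of H586-OP2: a packing of `k` trees covers all edges of `K_{2n-1,k}`. -/

set_option autoImplicit false

namespace H586OP2

theorem adj_parent (n : ℕ) (p : Fin (2 * n) → Fin (2 * n)) (hp : Par n p) (w : Fin (2 * n))
    (hw : w.val ≠ 0) : (PT (2 * n) p).Adj w (p w) := by
  left
  exact ⟨Fin.lt_def.2 (hp w hw).1, rfl⟩

theorem taskA3 : TaskA3 := by
  intro n k p f hn hp hinj hadj hdis
  -- the non-root vertices
  have hne : ∀ j : Fin (2 * n - 1), (⟨j.val + 1, by omega⟩ : Fin (2 * n)).val ≠ 0 := by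
    intro j
    simp
  let W : Fin (2 * n - 1) → Fin (2 * n) := fun j => ⟨j.val + 1, by omega⟩
  have hW : ∀ j, (W j).val ≠ 0 := fun j => hne j
  have key : ∀ u : Fin k × Fin (2 * n - 1), ∃ v : Fin (2 * n - 1) × Fin k,
      s(f u.1 (W u.2), f u.1 (p u.1 (W u.2))) = s(Sum.inl v.1, Sum.inr v.2) := by
    rintro ⟨i, j⟩
    have h := hadj i _ _ (adj_parent n (p i) (hp i) (W j) (hW j))
    simp only
    generalize f i (W j) = A at h ⊢
    generalize f i (p i (W j)) = B at h ⊢
    rw [completeBipartiteGraph_adj] at h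
    rcases A with a | a <;> rcases B with b | b <;> simp at h
    · exact ⟨(a, b), rfl⟩
    · exact ⟨(b, a), Sym2.eq_swap⟩
  choose F hF using key
  have hFinj : Function.Injective F := by
    rintro ⟨i, j⟩ ⟨i', j'⟩ h
    have h1 := hF (i, j)
    have h2 := hF (i', j')
    rw [h, ← h2] at h1
    simp only at h1
    by_cases hii : i = i'
    · subst hii
      have h3 : s(W j, p i (W j)) = s(W j', p i (W j')) := by
        have := Sym2.map.injective (hinj i)
        apply this
        simpa using h1
      rw [Sym2.eq_iff] at h3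
      rcases h3 with ⟨h4, _⟩ | ⟨h4, h5⟩
      · have h6 : j.val + 1 = j'.val + 1 := congrArg Fin.val h4
        have h7 : j = j' := Fin.ext (by omega)
        rw [h7]
      · exfalso
        have h6 := (hp i (W j) (hW j)).1
        have h7 := (hp i (W j') (hW j')).1
        rw [← h4] at h7
        rw [h5] at h6
        omega
    · exact absurd h1 (hdis i i' hii _ _ _ _ (adj_parent n (p i) (hp i) (W j) (hW j))
        (adj_parent n (p i') (hp i') (W j') (hW j')))
  have hsurj : Function.Surjective F := by
    have hcard : Fintype.card (Fin k × Fin (2 * n - 1)) = Fintype.card (Fin (2 * n - 1) × Fin k) := by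
      rw [Fintype.card_prod, Fintype.card_prod, mul_comm]
    exact ((Fintype.bijective_iff_injective_and_card F).2 ⟨hFinj, hcard⟩).2
  intro a b
  obtain ⟨⟨i, j⟩, hij⟩ := hsurj (a, b)
  have h1 := hF (i, j)
  rw [hij] at h1
  simp only at h1
  refine ⟨i, W j, hW j, ?_⟩
  rw [Sym2.eq_iff] at h1
  exact h1

end H586OP2
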