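import Mathlib
import Pool.Agent.H586R3.OP.Stmts2

set_option autoImplicit false

namespace H586OP2.A3b

theorem taskA3 : H586OP2.TaskA3 := by
  intro n k p f hn hp hf1 hf2 hf3
  have hadj : ∀ i (w : Fin (2 * n)), w.val ≠ 0 → (PT (2 * n) (p i)).Adj w (p i w) :=
    fun i w hw => Or.inl ⟨(hp i w hw).1, rfl⟩
  have hex : ∀ q : Fin k × Fin (2 * n - 1), ∃ r : Fin (2 * n - 1) × Fin k,
      ∃ w : Fin (2 * n), w.val = q.2.val + 1 ∧
        ((f q.1 w = Sum.inl r.1 ∧ f q.1 (p q.1 w) = Sum.inr r.2) ∨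
          (f q.1 w = Sum.inr r.2 ∧ f q.1 (p q.1 w) = Sum.inl r.1)) := by
    rintro ⟨i, j⟩
    let w : Fin (2 * n) := ⟨j.val + 1, by have := j.2; omega⟩
    have h := hf2 i w (p i w) (hadj i w (by simp [w]))
    rcases hx : f i w with a | b
    · rcases hy : f i (p i w) with a' | b'
      · rw [hx, hy] at h; simp [completeBipartiteGraph] at h
      · exact ⟨(a, b'), w, rfl, Or.inl ⟨hx, hy⟩⟩
    · rcases hy : f i (p i w) with a' | b'
      · exact ⟨(a', b), w, rfl, Or.inr ⟨hx, hy⟩⟩
      · rw [hx, hy] at h; simp [completeBipartiteGraph] at h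
  choose F W hW hF using hex
  have hs : ∀ q, s(f q.1 (W q), f q.1 (p q.1 (W q))) =
      s((Sum.inl (F q).1 : Fin (2 * n - 1) ⊕ Fin k), Sum.inr (F q).2) := by
    intro q
    rcases hF q with ⟨h1, h2⟩ | ⟨h1, h2⟩
    · rw [h1, h2]
    · rw [h1, h2]; exact Sym2.eq_swap
  have hinj : Function.Injective F := by
    rintro q q' h
    have h1 := hs q
    rw [h, ← hs q'] at h1
    by_cases hi : q.1 = q'.1
    · obtain ⟨i, j⟩ := q
      obtain ⟨i', j'⟩ := q'
      simp only at hi h1
      subst hi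
      have hw := hW (i, j)
      have hw' := hW (i, j')
      simp only at hw hw'
      rw [Sym2.eq_iff] at h1
      rcases h1 with ⟨h1, -⟩ | ⟨h1, h2⟩
      · have := hf1 i h1
        rw [this] at hw
        have : j = j' := Fin.ext (by omega)
        rw [this]
      · exfalso
        have e1 := hf1 i h1
        have e2 := hf1 i h2
        have a1 := (hp i (W (i, j)) (by omega)).1
        have a2 := (hp i (W (i, j')) (by omega)).1
        rw [← e1] at a2
        rw [e2] at a1
        omega
    · exfalso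
      exact hf3 q.1 q'.1 hi _ _ _ _ (hadj q.1 (W q) (by rw [hW]; omega))
        (hadj q'.1 (W q') (by rw [hW]; omega)) h1
  have hbij : Function.Bijective F := by
    rw [Fintype.bijective_iff_injective_and_card]
    refine ⟨hinj, ?_⟩
    simp [Fintype.card_prod, mul_comm]
  intro a b
  obtain ⟨q, hq⟩ := hbij.2 (a, b)
  refine ⟨q.1, W q, by rw [hW]; omega, ?_⟩
  have := hF q
  rw [hq] at this
  exact this

end H586OP2.A3b
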