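import Mathlib
import Pool.Agent.H586R3.OP.Stmts2

/-! Task A4 of project H586-OP2 (written by helper286). -/

set_option autoImplicit false

namespace H586OP2

theorem taskA4 : TaskA4 := by
  intro n k f hn hk hinj hadj hcov
  obtain ⟨z0, hz0⟩ : ∃ z : Fin (2 * n), z.val = 0 := ⟨⟨0, by omega⟩, rfl⟩
  obtain ⟨z1, hz1⟩ : ∃ z : Fin (2 * n), z.val = 1 := ⟨⟨1, by omega⟩, rfl⟩
  obtain ⟨i0, hi0⟩ : ∃ i : Fin k, i.val = 0 := ⟨⟨0, by omega⟩, rfl⟩
  have h01 : ∀ i : Fin k,
      (completeBipartiteGraph (Fin (2 * n - 1)) (Fin k)).Adj (f i z1) (f i z0) := by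
    intro i
    apply hadj
    left
    refine ⟨?_, ?_⟩
    · rw [Fin.lt_def, hz0, hz1]; omega
    · apply Fin.ext
      unfold fam
      split_ifs with h h'
      · simp only; omega
      · simp only; omega
      · rw [hz1] at h'; omega
  have hβ : ∀ i, ∃ b : Fin k, (f i z0 = Sum.inr b ∧ ∃ a, f i z1 = Sum.inl a) ∨
      (f i z1 = Sum.inr b ∧ ∃ a, f i z0 = Sum.inl a) := by
    intro i
    have h := h01 i
    cases h0 : f i z0 with
    | inl a0 =>
      cases h1 : f i z1 with
      | inl a1 => rw [h0, h1] at h; simp [completeBipartiteGraph] at h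
      | inr b1 => exact ⟨b1, Or.inr ⟨rfl, a0, rfl⟩⟩
    | inr b0 =>
      cases h1 : f i z1 with
      | inl a1 => exact ⟨b0, Or.inl ⟨rfl, a1, rfl⟩⟩
      | inr b1 => rw [h0, h1] at h; simp [completeBipartiteGraph] at h
  choose β hβ using hβ
  obtain ⟨b, hb⟩ : ∃ b, ∀ i : Fin k, i ≠ i0 → β i ≠ b := by
    by_contra hne
    push Not at hne
    have h1 : (Finset.univ : Finset (Fin k)) ⊆ (Finset.univ.erase i0).image β := by
      intro b _
      obtain ⟨i, hi, hib⟩ := hne b
      exact Finset.mem_image.mpr ⟨i, Finset.mem_erase.mpr ⟨hi, Finset.mem_univ _⟩, hib⟩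
    have h2 := (Finset.card_le_card h1).trans Finset.card_image_le
    rw [Finset.card_erase_of_mem (Finset.mem_univ _), Finset.card_univ, Fintype.card_fin] at h2
    omega
  have hpar : ∀ i : Fin k, i ≠ i0 → ∀ w : Fin (2 * n), w.val ≠ 0 →
      fam n k i w = z0 ∨ fam n k i w = z1 := by
    intro i hi w hw
    have hi' : i.val ≠ 0 := fun h => hi (Fin.ext (by rw [h, hi0]))
    by_cases h : w.val % 2 = 1
    · left
      apply Fin.ext
      simp only [fam, if_neg hi', if_pos h, hz0]
    · right
      apply Fin.ext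
      simp only [fam, if_neg hi', if_neg h, hz1]
      omega
  have hfam0 : ∀ w : Fin (2 * n), (fam n k i0 w).val = w.val - 1 := by
    intro w
    simp only [fam, if_pos hi0]
  classical
  obtain ⟨x, hx⟩ : ∃ x : Fin (2 * n), ∀ y, f i0 y = Sum.inr b → y = x := by
    by_cases h : ∃ x, f i0 x = Sum.inr b
    · obtain ⟨x, hx⟩ := h
      exact ⟨x, fun y hy => hinj i0 (hy.trans hx.symm)⟩
    · exact ⟨z0, fun y hy => absurd ⟨y, hy⟩ h⟩
  let nx : Fin (2 * n) := if h : x.val + 1 < 2 * n then ⟨x.val + 1, h⟩ else x
  let cv : Fin k → Fin (2 * n - 1) ⊕ Fin k := fun i =>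
    if (f i z0).isLeft then f i z0 else f i z1
  let T : Finset (Fin (2 * n - 1) ⊕ Fin k) :=
    (Finset.univ.erase i0).image cv ∪ ({f i0 nx} ∪ {f i0 (fam n k i0 x)})
  have hsub : (Finset.univ : Finset (Fin (2 * n - 1))).image Sum.inl ⊆ T := by
    intro s hs
    obtain ⟨a, -, rfl⟩ := Finset.mem_image.mp hs
    obtain ⟨i, w, hw, h⟩ := hcov a b
    by_cases hi : i = i0
    · subst hi
      rcases h with ⟨h1, h2⟩ | ⟨h1, h2⟩
      · have h3 := hx _ h2
        have h4 : nx = w := by
          apply Fin.ext
          have h5 := hfam0 w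
          rw [h3] at h5
          have h6 : x.val + 1 < 2 * n := by have := w.isLt; omega
          simp only [nx, dif_pos h6]
          omega
        rw [← h1]
        refine Finset.mem_union_right _ (Finset.mem_union_left _ ?_)
        rw [h4]
        exact Finset.mem_singleton_self _
      · have h3 := hx _ h1
        rw [← h2, h3]
        refine Finset.mem_union_right _ (Finset.mem_union_right _ ?_)
        exact Finset.mem_singleton_self _
    · refine Finset.mem_union_left _ (Finset.mem_image.mpr
        ⟨i, Finset.mem_erase.mpr ⟨hi, Finset.mem_univ _⟩, ?_⟩)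
      rcases h with ⟨h1, h2⟩ | ⟨h1, h2⟩
      · exfalso
        rcases hpar i hi w hw with hp | hp
        · rw [hp] at h2
          rcases hβ i with ⟨h3, _⟩ | ⟨_, a', h4⟩
          · rw [h3] at h2
            exact hb i hi (Sum.inr_injective h2)
          · rw [h4] at h2
            exact absurd h2 Sum.inl_ne_inr
        · rw [hp] at h2
          rcases hβ i with ⟨_, a', h4⟩ | ⟨h3, _⟩
          · rw [h4] at h2
            exact absurd h2 Sum.inl_ne_inr
          · rw [h3] at h2
            exact hb i hi (Sum.inr_injective h2)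
      · rcases hpar i hi w hw with hp | hp
        · rw [hp] at h2
          simp only [cv, h2, Sum.isLeft_inl, if_true]
        · rw [hp] at h2
          rcases hβ i with ⟨h3, _⟩ | ⟨h3, _⟩
          · simp only [cv, h3, Sum.isLeft_inr, h2]
            simp
          · rw [h3] at h2
            exact absurd h2.symm Sum.inl_ne_inr
  have hc1 := Finset.card_le_card hsub
  rw [Finset.card_image_of_injective _ Sum.inl_injective, Finset.card_univ,
    Fintype.card_fin] at hc1
  have hc2 : T.card ≤ (k - 1) + (1 + 1) := by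
    refine (Finset.card_union_le _ _).trans (Nat.add_le_add ?_ ?_)
    · refine Finset.card_image_le.trans ?_
      rw [Finset.card_erase_of_mem (Finset.mem_univ _), Finset.card_univ, Fintype.card_fin]
    · refine (Finset.card_union_le _ _).trans ?_
      rw [Finset.card_singleton, Finset.card_singleton]
  omega

end H586OP2
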