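import Mathlib
import Pool.Agent.H586R3.OP.Stmts2

set_option autoImplicit false

namespace H586OP2.A4b

theorem taskA4 : H586OP2.TaskA4 := by
  classical
  intro n k f hn hk hf1 hf2 hcov
  let c0 : Fin (2 * n) := ⟨0, by omega⟩
  let c1 : Fin (2 * n) := ⟨1, by omega⟩
  -- the double stars
  have hpar : ∀ i : Fin k, i.val ≠ 0 → ∀ w : Fin (2 * n), w.val ≠ 0 →
      fam n k i w = c0 ∨ fam n k i w = c1 := by
    intro i hi w hw
    have : (fam n k i w).val = 0 ∨ (fam n k i w).val = 1 := by
      unfold fam
      rw [if_neg hi]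
      simp only
      split_ifs
      · left; rfl
      · right; omega
    rcases this with h | h
    · left; exact Fin.ext h
    · right; exact Fin.ext h
  have hc10 : ∀ i : Fin k, i.val ≠ 0 → (PT (2 * n) (fam n k i)).Adj c1 c0 := by
    intro i hi
    left
    refine ⟨Fin.lt_def.2 (by simp [c0, c1]), ?_⟩
    apply Fin.ext
    unfold fam
    rw [if_neg hi]
    simp [c0, c1]
  have hβ : ∀ i : Fin k, ∃ b : Fin k, i.val ≠ 0 → (∀ b', f i c0 = Sum.inr b' → b' = b) ∧
      ∀ b', f i c1 = Sum.inr b' → b' = b := by
    intro i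
    by_cases hi : i.val = 0
    · exact ⟨i, fun h => absurd hi h⟩
    · have h := hf2 i c1 c0 (hc10 i hi)
      rcases hx : f i c1 with a | b
      · rcases hy : f i c0 with a' | b'
        · rw [hx, hy] at h; simp [completeBipartiteGraph] at h
        · refine ⟨b', fun _ => ⟨fun b'' h'' => ?_, fun b'' h'' => ?_⟩⟩
          · exact (Sum.inr_injective h'').symm
          · simp at h''
      · rcases hy : f i c0 with a' | b'
        · refine ⟨b, fun _ => ⟨fun b'' h'' => ?_, fun b'' h'' => ?_⟩⟩
          · simp at h''
          · exact (Sum.inr_injective h'').symm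
        · rw [hx, hy] at h; simp [completeBipartiteGraph] at h
  choose β hβ using hβ
  obtain ⟨bs, hbs⟩ : ∃ bs : Fin k, ∀ i : Fin k, i.val ≠ 0 → β i ≠ bs := by
    by_contra hcon
    push Not at hcon
    have hsub : (Finset.univ : Finset (Fin k)) ⊆
        (Finset.univ.filter (fun i : Fin k => i.val ≠ 0)).image β := by
      intro b _
      obtain ⟨i, hi, hib⟩ := hcon b
      exact Finset.mem_image.2 ⟨i, by simp [hi], hib⟩
    have h1 := Finset.card_le_card hsub
    have h2 : ((Finset.univ.filter (fun i : Fin k => i.val ≠ 0)).image β).card ≤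
        (Finset.univ.filter (fun i : Fin k => i.val ≠ 0)).card := Finset.card_image_le
    have h3 : (Finset.univ.filter (fun i : Fin k => i.val ≠ 0)).card <
        (Finset.univ : Finset (Fin k)).card := by
      apply Finset.card_lt_card
      rw [Finset.filter_ssubset]
      exact ⟨⟨0, by omega⟩, Finset.mem_univ _, by simp⟩
    omega
  let i0 : Fin k := ⟨0, by omega⟩
  have hcode : ∀ a : Fin (2 * n - 1), ∃ o : Option (Fin k),
      (∃ i, o = some i ∧ ∃ w, f i w = Sum.inr bs ∧ f i (fam n k i w) = Sum.inl a) ∨
      (o = none ∧ ∃ w : Fin (2 * n), w.val ≠ 0 ∧ f i0 w = Sum.inl a ∧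
        f i0 (fam n k i0 w) = Sum.inr bs) := by
    intro a
    obtain ⟨i, w, hw, h | h⟩ := hcov a bs
    · by_cases hi : i.val = 0
      · have : i = i0 := Fin.ext hi
        subst this
        exact ⟨none, Or.inr ⟨rfl, w, hw, h.1, h.2⟩⟩
      · exfalso
        rcases hpar i hi w hw with e | e
        · rw [e] at h
          exact hbs i hi ((hβ i hi).1 _ h.2).symm
        · rw [e] at h
          exact hbs i hi ((hβ i hi).2 _ h.2).symm
    · exact ⟨some i, Or.inl ⟨i, rfl, w, h.1, h.2⟩⟩
  choose o ho using hcode
  have hoinj : Function.Injective o := by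
    intro a a' haa
    rcases ho a with ⟨i, hi, w, h1, h2⟩ | ⟨hi, w, hw, h1, h2⟩
    · rcases ho a' with ⟨i', hi', w', h1', h2'⟩ | ⟨hi', w', hw', h1', h2'⟩
      · rw [hi, hi'] at haa
        have := Option.some_injective _ haa
        subst this
        have hww : w = w' := hf1 i (h1.trans h1'.symm)
        subst hww
        exact Sum.inl_injective (h2.symm.trans h2')
      · rw [hi, hi'] at haa; simp at haa
    · rcases ho a' with ⟨i', hi', w', h1', h2'⟩ | ⟨hi', w', hw', h1', h2'⟩
      · rw [hi, hi'] at haa; simp at haa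
      · have hpp := hf1 i0 (h2.trans h2'.symm)
        have hpv := congrArg Fin.val hpp
        unfold fam at hpv
        simp only [i0, if_true] at hpv
        have hww : w = w' := Fin.ext (by omega)
        subst hww
        exact Sum.inl_injective (h1.symm.trans h1')
  have := Fintype.card_le_of_injective o hoinj
  simp only [Fintype.card_fin, Fintype.card_option] at this
  omega

end H586OP2.A4b
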