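import Mathlib
import Pool.Agent.H586R3.TP.Stmts
import Pool.Agent.H216R3.BalDefs

/-! Project H586-OP (MP_4c107d_co, MP_7c15de_co): the path on `2n` vertices does not decompose
`K_{2n-1,k}` for odd `k < 2n-1`. -/

set_option autoImplicit false

open SimpleGraph

namespace H586OP

/-- a family of paths on `2n` vertices whose edges partition the edges of `K_{2n-1,k}` -/
def PathDec (n k : ℕ) (ι : Type) (g : ι → Fin (2 * n) → Fin (2 * n - 1) ⊕ Fin k) : Prop :=
  (∀ i, Function.Injective (g i)) ∧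
  (∀ i u v, (pathGraph (2 * n)).Adj u v →
    (completeBipartiteGraph (Fin (2 * n - 1)) (Fin k)).Adj (g i u) (g i v)) ∧
  ∀ (a : Fin (2 * n - 1)) (b : Fin k), ∃! i, ∃ u v, (pathGraph (2 * n)).Adj u v ∧
    g i u = Sum.inl a ∧ g i v = Sum.inr b

/-- TASK 1: number of paths -/
def Task1 : Prop := ∀ (n k : ℕ) (ι : Type) [Fintype ι]
  (g : ι → Fin (2 * n) → Fin (2 * n - 1) ⊕ Fin k), 1 ≤ n → PathDec n k ι g → Fintype.card ι = k

/-- TASK 2: every host vertex is an end of one of the paths (parity) -/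
def Task2 : Prop := ∀ (n k : ℕ) (ι : Type) [Fintype ι]
  (g : ι → Fin (2 * n) → Fin (2 * n - 1) ⊕ Fin k), 1 ≤ n → Odd k → PathDec n k ι g →
  ∀ x, ∃ i, ∃ w : Fin (2 * n), g i w = x ∧ (w.val = 0 ∨ w.val + 1 = 2 * n)

/-- TASK 3: `k` edge-disjoint paths cover all edges -/
def Task3 : Prop := ∀ (n k : ℕ) (g : Fin k → Fin (2 * n) → Fin (2 * n - 1) ⊕ Fin k), 1 ≤ n →
  (∀ i, Function.Injective (g i)) →
  (∀ i u v, (pathGraph (2 * n)).Adj u v →
    (completeBipartiteGraph (Fin (2 * n - 1)) (Fin k)).Adj (g i u) (g i v)) →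
  (∀ i j, i ≠ j → ∀ u v u' v', (pathGraph (2 * n)).Adj u v → (pathGraph (2 * n)).Adj u' v' →
    s(g i u, g i v) ≠ s(g j u', g j v')) →
  PathDec n k (Fin k) g

/-- TASK 4: the path is a balanced tree -/
def Task4 : Prop := ∀ n : ℕ, 1 ≤ n → H586TP.BalTree n (pathGraph (2 * n)) ∧
  Pool.Agent.H216R3.IsBalancedTree (pathGraph (2 * n)) n

/-- TASK 5: decompositions in the sense of subgraphs -/
def Task5 : Prop := ∀ n k : ℕ, 1 ≤ n →
  Pool.Agent.H216R3.Decomposes (pathGraph (2 * n))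
    (completeBipartiteGraph (Fin (2 * n - 1)) (Fin k)) →
  ∃ (ι : Type) (_ : Fintype ι) (g : ι → Fin (2 * n) → Fin (2 * n - 1) ⊕ Fin k),
    PathDec n k ι g

theorem core (h1 : Task1) (h2 : Task2) (n k : ℕ) (hn : 1 ≤ n) (hk : Odd k) (ι : Type) [Fintype ι]
    (g : ι → Fin (2 * n) → Fin (2 * n - 1) ⊕ Fin k) (hg : PathDec n k ι g) : 2 * n - 1 ≤ k := by
  have hc := h1 n k ι g hn hg
  have hx := h2 n k ι g hn hk hg
  let e : ι × Bool → Fin (2 * n - 1) ⊕ Fin k := fun p =>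
    g p.1 (if p.2 then ⟨0, by omega⟩ else ⟨2 * n - 1, by omega⟩)
  have he : Function.Surjective e := by
    intro x
    obtain ⟨i, w, hw, h⟩ := hx x
    rcases h with h | h
    · refine ⟨(i, true), ?_⟩
      simp only [e, if_true]
      rw [← hw]; congr 1; ext; simp [h]
    · refine ⟨(i, false), ?_⟩
      simp only [e, Bool.false_eq_true, if_false]
      rw [← hw]; congr 1; ext; simp; omega
  have := Fintype.card_le_of_surjective e he
  simp only [Fintype.card_sum, Fintype.card_fin, Fintype.card_prod, Fintype.card_bool, hc] at this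
  omega

theorem noPack (h1 : Task1) (h2 : Task2) (h3 : Task3) (h4 : Task4) (n k : ℕ) (hk : Odd k)
    (h : k < 2 * n - 1) : ¬ H586TP.PackStmt n k := by
  intro hP
  have hn : 1 ≤ n := by omega
  obtain ⟨f, hf1, hf2, hf3⟩ := hP (fun _ => Fin (2 * n)) (fun _ => pathGraph (2 * n))
    (fun _ => (h4 n hn).1)
  have := core h1 h2 n k hn hk (Fin k) f (h3 n k f hn hf1 hf2 hf3)
  omega

theorem noDec (h1 : Task1) (h2 : Task2) (h5 : Task5) (n k : ℕ) (hk : Odd k)
    (h : k < 2 * n - 1) : ¬ Pool.Agent.H216R3.Decomposes (pathGraph (2 * n))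
      (completeBipartiteGraph (Fin (2 * n - 1)) (Fin k)) := by
  intro hP
  have hn : 1 ≤ n := by omega
  obtain ⟨ι, hι, g, hg⟩ := h5 n k hn hP
  have := core h1 h2 n k hn hk ι g hg
  omega

theorem noS (h1 : Task1) (h2 : Task2) (h4 : Task4) (h5 : Task5) (n k : ℕ) (hk : Odd k)
    (h : k < 2 * n - 1) : k ∉ Pool.Agent.H216R3.S n := fun hS =>
  noDec h1 h2 h5 n k hk h (hS.2 _ _ (h4 n (by omega)).2)

end H586OP
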