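import Pool.Agent.H586R3.OP.Stmts

/-! H586-OP, Task 1: the number of paths. -/

set_option autoImplicit false

open SimpleGraph

namespace H586OP

theorem task1 : Task1 := by
  classical
  intro n k ι _ g hn hP
  obtain ⟨hinj, hadj, huniq⟩ := hP
  have hpos : 0 < 2 * n - 1 := by omega
  -- the edge number j of the path i
  let U : Fin (2 * n - 1) → Fin (2 * n) := fun j => ⟨j.val, by have := j.isLt; omega⟩
  let W : Fin (2 * n - 1) → Fin (2 * n) := fun j => ⟨j.val + 1, by have := j.isLt; omega⟩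
  have hUW : ∀ j, (pathGraph (2 * n)).Adj (U j) (W j) := by
    intro j
    rw [pathGraph_adj]
    left
    rfl
  have hex : ∀ x : ι × Fin (2 * n - 1), ∃ y : Fin (2 * n - 1) × Fin k,
      (g x.1 (U x.2) = Sum.inl y.1 ∧ g x.1 (W x.2) = Sum.inr y.2) ∨
      (g x.1 (U x.2) = Sum.inr y.2 ∧ g x.1 (W x.2) = Sum.inl y.1) := by
    rintro ⟨i, j⟩
    have h := hadj i _ _ (hUW j)
    rcases hu : g i (U j) with a | b <;> rcases hw : g i (W j) with a' | b'
    · rw [hu, hw] at h; simp [completeBipartiteGraph] at h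
    · exact ⟨(a, b'), Or.inl ⟨rfl, rfl⟩⟩
    · exact ⟨(a', b), Or.inr ⟨rfl, rfl⟩⟩
    · rw [hu, hw] at h; simp [completeBipartiteGraph] at h
  choose F hF using hex
  -- the edge of the host graph determines the path
  have hcl : ∀ x : ι × Fin (2 * n - 1), ∃ u v, (pathGraph (2 * n)).Adj u v ∧
      g x.1 u = Sum.inl (F x).1 ∧ g x.1 v = Sum.inr (F x).2 := by
    intro x
    rcases hF x with ⟨h1, h2⟩ | ⟨h1, h2⟩
    · exact ⟨_, _, hUW x.2, h1, h2⟩
    · exact ⟨_, _, (hUW x.2).symm, h2, h1⟩
  have hFinj : Function.Injective F := by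
    rintro ⟨i, j⟩ ⟨i', j'⟩ he
    have h1 := hcl (i, j)
    have h2 := hcl (i', j')
    rw [← he] at h2
    obtain ⟨i₀, _, hu⟩ := huniq (F (i, j)).1 (F (i, j)).2
    have e1 : i = i₀ := hu i h1
    have e2 : i' = i₀ := hu i' h2
    have e3 : i = i' := e1.trans e2.symm
    subst e3
    have hv : ∀ p q : Fin (2 * n), g i p = g i q → p.val = q.val := fun p q h =>
      congrArg Fin.val (hinj i h)
    have h3 := hF (i, j)
    have h4 := hF (i, j')
    rw [← he] at h4
    simp only at h3 h4
    have hj : j.val = j'.val := by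
      rcases h3 with ⟨a1, b1⟩ | ⟨a1, b1⟩ <;> rcases h4 with ⟨a2, b2⟩ | ⟨a2, b2⟩
      · exact hv _ _ (a1.trans a2.symm)
      · have c1 := hv _ _ (a1.trans b2.symm)
        have c2 := hv _ _ (b1.trans a2.symm)
        simp only [U, W] at c1 c2
        omega
      · have c1 := hv _ _ (a1.trans b2.symm)
        have c2 := hv _ _ (b1.trans a2.symm)
        simp only [U, W] at c1 c2
        omega
      · exact hv _ _ (a1.trans a2.symm)
    rw [Fin.ext hj]
  have hFsurj : Function.Surjective F := by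
    rintro ⟨a, b⟩
    obtain ⟨i, ⟨u, v, huv, hu, hv⟩, _⟩ := huniq a b
    have hul := u.isLt
    have hvl := v.isLt
    rw [pathGraph_adj] at huv
    rcases huv with h | h
    · let j : Fin (2 * n - 1) := ⟨u.val, by omega⟩
      refine ⟨(i, j), ?_⟩
      have e1 : U j = u := rfl
      have e2 : W j = v := Fin.ext h
      have h3 := hF (i, j)
      simp only [e1, e2, hu, hv] at h3
      rcases h3 with ⟨c1, c2⟩ | ⟨c1, c2⟩
      · exact Prod.ext (Sum.inl.inj c1).symm (Sum.inr.inj c2).symm
      · cases c1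
    · let j : Fin (2 * n - 1) := ⟨v.val, by omega⟩
      refine ⟨(i, j), ?_⟩
      have e1 : U j = v := rfl
      have e2 : W j = u := Fin.ext h
      have h3 := hF (i, j)
      simp only [e1, e2, hu, hv] at h3
      rcases h3 with ⟨c1, c2⟩ | ⟨c1, c2⟩
      · cases c1
      · exact Prod.ext (Sum.inl.inj c2).symm (Sum.inr.inj c1).symm
  have hcard := Fintype.card_of_bijective ⟨hFinj, hFsurj⟩
  rw [Fintype.card_prod, Fintype.card_prod, Fintype.card_fin, Fintype.card_fin, mul_comm] at hcard
  exact Nat.eq_of_mul_eq_mul_left hpos hcard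

end H586OP
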