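import Pool.Agent.H586R3.OP.Stmts

/-! Task 2 of project H586-OP (helper59): parity at the interior vertices of the paths. -/

set_option autoImplicit false

open SimpleGraph

namespace H586OP.T2

lemma even_card {ι β : Type} [Fintype ι] [Fintype β] (R : ι → β → Prop)
    (hu : ∀ b, ∃! i, R i b)
    (h2 : ∀ i, (∀ b, ¬ R i b) ∨ ∃ b1 b2, b1 ≠ b2 ∧ ∀ b, R i b ↔ b = b1 ∨ b = b2) :
    Even (Fintype.card β) := by
  classical
  choose φ hφ hφ' using hu
  have hiff : ∀ i b, φ b = i ↔ R i b := by
    intro i b
    constructor
    · rintro rfl
      exact hφ b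
    · intro h
      exact (hφ' b i h).symm
  have h1 : (Finset.univ : Finset β).card
      = ∑ i ∈ (Finset.univ : Finset ι), (Finset.univ.filter (fun b => φ b = i)).card :=
    Finset.card_eq_sum_card_fiberwise (fun x _ => Finset.mem_coe.2 (Finset.mem_univ _))
  rw [← Finset.card_univ, h1]
  apply Finset.even_sum
  intro i _
  rcases h2 i with h | ⟨b1, b2, hne, h⟩
  · have h3 : Finset.univ.filter (fun b => φ b = i) = ∅ := by
      apply Finset.filter_eq_empty_iff.2
      intro b _ hb
      exact h b ((hiff i b).1 hb)
    rw [h3]
    simp
  · have h3 : Finset.univ.filter (fun b => φ b = i) = {b1, b2} := by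
      ext b
      simp only [Finset.mem_filter, Finset.mem_univ, true_and, Finset.mem_insert,
        Finset.mem_singleton]
      rw [hiff, h]
    rw [h3, Finset.card_pair hne]
    exact even_two

theorem task2 : H586OP.Task2 := by
  intro n k ι _ g hn hk hg
  obtain ⟨hinj, hadj, hun⟩ := hg
  intro x
  by_contra hcon
  push Not at hcon
  have hint : ∀ i w, g i w = x → w.val ≠ 0 ∧ w.val + 1 ≠ 2 * n := fun i w h => hcon i w h
  rcases x with a | b
  · have hev : Even (Fintype.card (Fin k)) := by
      apply even_card (fun (i : ι) (b : Fin k) => ∃ u v, (pathGraph (2 * n)).Adj u v ∧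
        g i u = Sum.inl a ∧ g i v = Sum.inr b) (hun a)
      intro i
      by_cases h : ∃ u, g i u = Sum.inl a
      · right
        obtain ⟨u, hu⟩ := h
        obtain ⟨h0, h1⟩ := hint i u hu
        have hlt := u.2
        obtain ⟨u1, hu1⟩ : ∃ u1 : Fin (2 * n), u1.val + 1 = u.val :=
          ⟨⟨u.val - 1, by omega⟩, by simp only; omega⟩
        obtain ⟨u2, hu2⟩ : ∃ u2 : Fin (2 * n), u.val + 1 = u2.val :=
          ⟨⟨u.val + 1, by omega⟩, rfl⟩
        have ha1 : (pathGraph (2 * n)).Adj u u1 := by
          rw [pathGraph_adj]; right; exact hu1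
        have ha2 : (pathGraph (2 * n)).Adj u u2 := by
          rw [pathGraph_adj]; left; exact hu2
        have key : ∀ v, (pathGraph (2 * n)).Adj u v → ∃ b, g i v = Sum.inr b := by
          intro v hv
          have h3 := hadj i u v hv
          rw [hu] at h3
          rcases hgv : g i v with c | c
          · rw [hgv] at h3
            simp at h3
          · exact ⟨c, rfl⟩
        obtain ⟨b1, hb1⟩ := key u1 ha1
        obtain ⟨b2, hb2⟩ := key u2 ha2
        refine ⟨b1, b2, ?_, ?_⟩
        · rintro rfl
          have h4 := hinj i (hb1.trans hb2.symm)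
          rw [h4] at hu1
          omega
        · intro b
          constructor
          · rintro ⟨u', v', hav, hu', hv'⟩
            have h4 : u' = u := hinj i (hu'.trans hu.symm)
            subst h4
            rw [pathGraph_adj] at hav
            rcases hav with h5 | h5
            · have h6 : v' = u2 := Fin.ext (by omega)
              rw [h6, hb2] at hv'
              right
              exact (Sum.inr.inj hv').symm
            · have h6 : v' = u1 := Fin.ext (by omega)
              rw [h6, hb1] at hv'
              left
              exact (Sum.inr.inj hv').symm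
          · rintro (rfl | rfl)
            · exact ⟨u, u1, ha1, hu, hb1⟩
            · exact ⟨u, u2, ha2, hu, hb2⟩
      · left
        rintro b ⟨u, v, _, hu, _⟩
        exact h ⟨u, hu⟩
    rw [Fintype.card_fin] at hev
    exact (Nat.not_even_iff_odd.2 hk) hev
  · have hev : Even (Fintype.card (Fin (2 * n - 1))) := by
      apply even_card (fun (i : ι) (a : Fin (2 * n - 1)) => ∃ u v, (pathGraph (2 * n)).Adj u v ∧
        g i u = Sum.inl a ∧ g i v = Sum.inr b) (fun a => hun a b)
      intro i
      by_cases h : ∃ u, g i u = Sum.inr b
      · right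
        obtain ⟨u, hu⟩ := h
        obtain ⟨h0, h1⟩ := hint i u hu
        have hlt := u.2
        obtain ⟨u1, hu1⟩ : ∃ u1 : Fin (2 * n), u1.val + 1 = u.val :=
          ⟨⟨u.val - 1, by omega⟩, by simp only; omega⟩
        obtain ⟨u2, hu2⟩ : ∃ u2 : Fin (2 * n), u.val + 1 = u2.val :=
          ⟨⟨u.val + 1, by omega⟩, rfl⟩
        have ha1 : (pathGraph (2 * n)).Adj u1 u := by
          rw [pathGraph_adj]; left; exact hu1
        have ha2 : (pathGraph (2 * n)).Adj u2 u := by
          rw [pathGraph_adj]; right; exact hu2
        have key : ∀ v, (pathGraph (2 * n)).Adj v u → ∃ a, g i v = Sum.inl a := by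
          intro v hv
          have h3 := hadj i v u hv
          rw [hu] at h3
          rcases hgv : g i v with c | c
          · exact ⟨c, rfl⟩
          · rw [hgv] at h3
            simp at h3
        obtain ⟨b1, hb1⟩ := key u1 ha1
        obtain ⟨b2, hb2⟩ := key u2 ha2
        refine ⟨b1, b2, ?_, ?_⟩
        · rintro rfl
          have h4 := hinj i (hb1.trans hb2.symm)
          rw [h4] at hu1
          omega
        · intro a
          constructor
          · rintro ⟨v', u', hav, hv', hu'⟩
            have h4 : u' = u := hinj i (hu'.trans hu.symm)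
            subst h4
            rw [pathGraph_adj] at hav
            rcases hav with h5 | h5
            · have h6 : v' = u1 := Fin.ext (by omega)
              rw [h6, hb1] at hv'
              left
              exact (Sum.inl.inj hv').symm
            · have h6 : v' = u2 := Fin.ext (by omega)
              rw [h6, hb2] at hv'
              right
              exact (Sum.inl.inj hv').symm
          · rintro (rfl | rfl)
            · exact ⟨u1, u, ha1, hb1, hu⟩
            · exact ⟨u2, u, ha2, hb2, hu⟩
      · left
        rintro a ⟨u, v, _, _, hv⟩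
        exact h ⟨v, hv⟩
    rw [Fintype.card_fin] at hev
    obtain ⟨r, hr⟩ := hev
    omega

end H586OP.T2

theorem H586OP.task2 : H586OP.Task2 := H586OP.T2.task2
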