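import Pool.Agent.H586R3.OP.Stmts

/-! Project H586-OP, Task 3 (helper41): edge-disjoint paths cover all edges (counting). -/

set_option autoImplicit false

namespace H586OP.T3

open SimpleGraph

lemma cover (N k : ℕ) (g : Fin k → Fin (N + 1) → Fin N ⊕ Fin k)
    (hinj : ∀ i, Function.Injective (g i))
    (hadj : ∀ i u v, (pathGraph (N + 1)).Adj u v →
      (completeBipartiteGraph (Fin N) (Fin k)).Adj (g i u) (g i v))
    (hdisj : ∀ i i' u v u' v', i ≠ i' → (pathGraph (N + 1)).Adj u v → (pathGraph (N + 1)).Adj u' v' →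
      s(g i u, g i v) ≠ s(g i' u', g i' v')) (a : Fin N) (b : Fin k) :
    ∃! i, ∃ u v, (pathGraph (N + 1)).Adj u v ∧ g i u = Sum.inl a ∧ g i v = Sum.inr b := by
  have hpa : ∀ j : Fin N, (pathGraph (N + 1)).Adj j.castSucc j.succ := by
    intro j
    rw [pathGraph_adj]
    left
    simp
  have hF : ∀ p : Fin k × Fin N, ∃ q : Fin N × Fin k,
      s(g p.1 p.2.castSucc, g p.1 p.2.succ) = s(Sum.inl q.1, Sum.inr q.2) := by
    rintro ⟨i, j⟩
    have h := hadj i _ _ (hpa j)
    simp only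
    rcases h1 : g i j.castSucc with x | x <;> rcases h2 : g i j.succ with y | y <;>
      rw [h1, h2] at h <;> simp [completeBipartiteGraph] at h
    · exact ⟨(x, y), rfl⟩
    · exact ⟨(y, x), Sym2.eq_swap⟩
  choose F hF using hF
  have hFinj : Function.Injective F := by
    rintro ⟨i, j⟩ ⟨i', j'⟩ h
    have e : s(g i j.castSucc, g i j.succ) = s(g i' j'.castSucc, g i' j'.succ) := by
      have h1 := hF (i, j)
      have h2 := hF (i', j')
      simp only at h1 h2
      rw [h1, h2, h]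
    have hi : i = i' := by
      by_contra hne
      exact hdisj i i' _ _ _ _ hne (hpa j) (hpa j') e
    subst hi
    rw [Sym2.eq_iff] at e
    rcases e with ⟨e1, _⟩ | ⟨e1, e2⟩
    · have := hinj i e1
      rw [Fin.castSucc_inj] at this
      rw [this]
    · have h1 := hinj i e1
      have h2 := hinj i e2
      rw [Fin.ext_iff] at h1 h2
      simp at h1 h2
      omega
  have hFs : Function.Surjective F := by
    have hc : Fintype.card (Fin k × Fin N) = Fintype.card (Fin N × Fin k) := by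
      simp [mul_comm]
    exact ((Fintype.bijective_iff_injective_and_card F).mpr ⟨hFinj, hc⟩).2
  obtain ⟨⟨i, j⟩, hij⟩ := hFs (a, b)
  have hs := hF (i, j)
  rw [hij] at hs
  simp only at hs
  have hex : ∃ u v, (pathGraph (N + 1)).Adj u v ∧ g i u = Sum.inl a ∧ g i v = Sum.inr b := by
    rw [Sym2.eq_iff] at hs
    rcases hs with ⟨e1, e2⟩ | ⟨e1, e2⟩
    · exact ⟨_, _, hpa j, e1, e2⟩
    · exact ⟨_, _, (hpa j).symm, e2, e1⟩
  refine ⟨i, hex, ?_⟩
  rintro i' ⟨u', v', hadj', e1, e2⟩
  by_contra hne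
  obtain ⟨u, v, huv, e3, e4⟩ := hex
  exact hdisj i' i u' v' u v hne hadj' huv (by rw [e1, e2, e3, e4])

lemma cover' (M N k : ℕ) (hM : M = N + 1) (g : Fin k → Fin M → Fin N ⊕ Fin k)
    (hinj : ∀ i, Function.Injective (g i))
    (hadj : ∀ i u v, (pathGraph M).Adj u v →
      (completeBipartiteGraph (Fin N) (Fin k)).Adj (g i u) (g i v))
    (hdisj : ∀ i j, i ≠ j → ∀ u v u' v', (pathGraph M).Adj u v → (pathGraph M).Adj u' v' →
      s(g i u, g i v) ≠ s(g j u', g j v')) (a : Fin N) (b : Fin k) :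
    ∃! i, ∃ u v, (pathGraph M).Adj u v ∧ g i u = Sum.inl a ∧ g i v = Sum.inr b := by
  subst hM
  exact cover N k g hinj hadj (fun i i' u v u' v' hne h1 h2 => hdisj i i' hne u v u' v' h1 h2) a b

end H586OP.T3

namespace H586OP

theorem task3 : Task3 := fun n k g hn hinj hadj hdisj =>
  ⟨hinj, hadj, fun a b => T3.cover' (2 * n) (2 * n - 1) k (by omega) g hinj hadj hdisj a b⟩

end H586OP
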