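import Pool.Agent.H586R3.OP.Stmts

set_option autoImplicit false

open SimpleGraph

namespace H586OP

theorem task5 : Task5 := by
  classical
  intro n k _ hdec
  obtain ⟨𝒟, h1, h2⟩ := hdec
  let H := completeBipartiteGraph (Fin (2 * n - 1)) (Fin k)
  have hfin : Finite H.Subgraph := by
    have hinj : Function.Injective
        (fun D : H.Subgraph => (D.verts, D.Adj)) := by
      intro D D' h
      have h3 := congrArg Prod.fst h
      have h4 := congrArg Prod.snd h
      exact Subgraph.ext h3 h4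
    exact Finite.of_injective _ hinj
  have hfin2 : Finite {D : H.Subgraph // D ∈ 𝒟} := Subtype.finite
  let e : ∀ D : {D : H.Subgraph // D ∈ 𝒟}, pathGraph (2 * n) ≃g D.1.coe :=
    fun D => (h1 D.1 D.2).some
  refine ⟨{D : H.Subgraph // D ∈ 𝒟}, Fintype.ofFinite _,
    fun D w => ((e D w : D.1.verts) : Fin (2 * n - 1) ⊕ Fin k), ?_, ?_, ?_⟩
  · intro D
    exact Subtype.val_injective.comp (e D).injective
  · intro D u v huv
    have h3 : D.1.coe.Adj (e D u) (e D v) := (e D).map_adj_iff.2 huv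
    exact D.1.adj_sub h3
  · intro a b
    have hH : H.Adj (Sum.inl a) (Sum.inr b) := by simp [H]
    obtain ⟨D, ⟨hD, hDe⟩, huniq⟩ := h2 s(Sum.inl a, Sum.inr b) (by
      rw [mem_edgeSet]; exact hH)
    have key : ∀ D' : {D : H.Subgraph // D ∈ 𝒟},
        (∃ u v, (pathGraph (2 * n)).Adj u v ∧
          ((e D' u : D'.1.verts) : Fin (2 * n - 1) ⊕ Fin k) = Sum.inl a ∧
          ((e D' v : D'.1.verts) : Fin (2 * n - 1) ⊕ Fin k) = Sum.inr b) ↔
        s((Sum.inl a : Fin (2 * n - 1) ⊕ Fin k), Sum.inr b) ∈ D'.1.edgeSet := by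
      intro D'
      rw [Subgraph.mem_edgeSet]
      constructor
      · rintro ⟨u, v, huv, hu, hv⟩
        have h3 : D'.1.coe.Adj (e D' u) (e D' v) := (e D').map_adj_iff.2 huv
        have h4 : D'.1.Adj (e D' u) (e D' v) := h3
        rw [hu, hv] at h4
        exact h4
      · intro hadj
        have hv1 : (Sum.inl a : Fin (2 * n - 1) ⊕ Fin k) ∈ D'.1.verts := hadj.fst_mem
        have hv2 : (Sum.inr b : Fin (2 * n - 1) ⊕ Fin k) ∈ D'.1.verts := hadj.snd_mem
        refine ⟨(e D').symm ⟨_, hv1⟩, (e D').symm ⟨_, hv2⟩, ?_, ?_, ?_⟩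
        · rw [← (e D').map_adj_iff]
          simp only [RelIso.apply_symm_apply]
          exact hadj
        · simp
        · simp
    refine ⟨⟨D, hD⟩, (key ⟨D, hD⟩).2 hDe, ?_⟩
    intro D' hD'
    have h5 := (key D').1 hD'
    exact Subtype.ext (huniq D'.1 ⟨D'.2, h5⟩)

end H586OP
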